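import Pool.Agent.V8H72.LC.Arith

/-!
MP_c7af3c_ag, Q1: all projective varieties which are finite over a product of symmetric powers of
generic complete intersections have both properties of the question.

Let `K` be an algebraically closed field of characteristic `0`, and let `k` be a field contained in
`K`, with algebraic closure `k'` in `K`. A *generic complete intersection* `X` (`GenericCI k K`, in
`Pool/Agent/N111/GI/Maps.lean`) is the intersection of a closed subset `V` of a projective space,
defined over `k'`, of dimension at most `m`, and of hypersurfaces `F a = 0` of degrees `d a`, where
the ratios of the coefficients of `F a` to one of them are, for all `a` together, algebraically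
independent over `k`. Let `S` be the sum of the numbers `d a + 1`.

Let `Z` be a closed subset of a projective space over `K` (not necessarily irreducible or smooth),
given by the set `Φ` of forms, and let `X j` be finitely many generic complete intersections. No
relation between the `X j` is assumed (they may be equal, or have common coefficients). We consider
the families of closed correspondences `Γ j` in `Z × X j` (`JointCor`, in
`Pool/Agent/V8H72/LC/Cor.lean`), given by bihomogeneous polynomials, such that, for all points `z` of
`Z` over all algebraically closed extensions `Ω` of `K`, the set of the points `x` of `X j` with
`(z, x)` in `Γ j` has at most `r j` elements, and `z` is defined over each algebraically closed field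
between `K` and `Ω` over which all these points are defined, for all `j`. For instance, if `g` is a
finite morphism from `Z` to the product of the symmetric powers `Sym ^ (r j) (X j)`, then the pairs
`(z, x)` with `x` in the support of the cycle which is the `j`-th component of `g z` form such a
family. So `Z` can be any closed subset of the product of the symmetric powers, or of the product of
the `X j`, or of a finite cover of it.

A morphism to `Z` from a smooth projective curve is given by a point `f` of `Z` over the function
field `E` of the curve, and `pht K f` is its degree (the degree of the pullback of `O(1)`). An
extension of fields `E / B` is a covering of the curve with function field `B`, and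
`canDeg K B = 2 g - 2`, where `g` is the genus of this curve.

An algebraically hyperbolic variety is groupless: a nonconstant morphism from an abelian variety is
nonconstant on some smooth projective curve that is mapped to the abelian variety, and the
multiplications by the natural numbers give morphisms of unbounded degree from this curve. The points
of a model of `Z` over a finitely generated ring are points of `Z` over a field generated over `k'` by
finitely many elements.

The proof of the arithmetic part: for the points `z` of degree at most `q` over such a field, the
points of the `X j` with `(z, x)` in `Γ j` have degree at most `q (r j)` over a larger field of the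
same kind, so they belong to a finite set by the theorem on the points of bounded degree of the
generic complete intersections; and only finitely many points `z` have all these points in a given
finite set, since otherwise the point of `Z` over the ultrapower of `K` given by a sequence of
different points `z` would be defined over `K`.
-/

set_option autoImplicit false
set_option linter.overlappingInstances false

namespace Pool.Agent.Results.MP_c7af3c_ag.JointCorrespondences

open MvPolynomial FF Pool.Agent.W603.LV Pool.Agent.W603.PV LinearAlgebra.Projectivization
open Pool.Agent.N111.GI (GenericCI)
open Pool.Agent.N95.GH (OnSet)
open Pool.Agent.V8H72.LC (JointCor)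

/-- Let `Z = {Φ = 0}` have a finite family of correspondences as above, with at most `r j` values, to
generic complete intersections `X j`, let `q ≥ 1`, and suppose that `S ≥ 2 m + 1 + q (r j)` for all
`X j`. Then

(1) for each field generated over `k'` by finitely many elements of `K`, there are only finitely many
points of `Z` of degree at most `q` over this field (`q = 1`: `Z` is arithmetically hyperbolic);

(2) there is a constant `A` such that, for all smooth projective curves `C` and all coverings
`C' → C` of degree at most `q` by smooth projective curves `C'`, all morphisms from `C'` to `Z` have
degree at most `A max (2 g (C) - 2, 0)` (`q = 1`: `Z` is algebraically hyperbolic, hence groupless). -/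
theorem result {k K : Type} [Field k] [Field K] [IsAlgClosed K] [CharZero K] [Algebra k K]
    {M : ℕ} {Φ : Set (MvPolynomial (Fin (M + 1)) K)} (hΦ : ∀ f ∈ Φ, ∃ e, f.IsHomogeneous e)
    {J : Type} [Finite J] {X : J → GenericCI k K} {r : J → ℕ} (C : JointCor Φ X r)
    {q : ℕ} (hq : 1 ≤ q) (hS : ∀ j, 2 * (X j).m + 1 + q * r j ≤ ∑ a, ((X j).d a + 1)) :
    (∀ T : Finset K, {p : ℙ K (Fin (M + 1) → K) | ∃ (z : Fin (M + 1) → K) (hz : z ≠ 0),
      p = Projectivization.mk K z hz ∧ (∀ f ∈ Φ, aeval z f = 0) ∧
      ∃ L : IntermediateField (IntermediateField.adjoin (algebraicClosure k K) (T : Set K)) K,
        FiniteDimensional (IntermediateField.adjoin (algebraicClosure k K) (T : Set K)) L ∧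
        Module.finrank (IntermediateField.adjoin (algebraicClosure k K) (T : Set K)) L ≤ q ∧
        ∀ i, z i ∈ L}.Finite) ∧
    ∃ A : ℕ, ∀ (B E : Type) [Field B] [Field E] [Algebra K B] [Algebra K E] [Algebra B E]
      [IsScalarTower K B E] [FiniteDimensional B E] [IsFF K B] [IsFF K E],
      Module.finrank B E ≤ q → ∀ f : Fin (M + 1) → E, OnSet Φ f →
        pht K f ≤ A * max (canDeg K B) 0 := by
  refine ⟨C.fin_points hΦ hS, ?_⟩
  obtain ⟨A, hA⟩ := C.cover (ρ := q) hΦ (fun j => by have := hS j; omega) (fun j hj => by
    have h1 := hS j
    have h2 : 1 * 1 ≤ q * r j := Nat.mul_le_mul hq hj
    omega)
  exact ⟨A, fun B E _ _ _ _ _ _ _ _ _ hBE f hf => hA B E hBE f hf⟩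

end Pool.Agent.Results.MP_c7af3c_ag.JointCorrespondences
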