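import Pool.Agent.V8H90.LS.Defs

/-!
MP_c7af3c_ag, Q1: coverings of arbitrary projective varieties, ramified over generic members of
arbitrary linear systems which contain the monomials in `x_c` and another variable, for the `c` in a
set `Z` of indices: both properties of the question are equivalent to the same properties of the
part over the linear subspace `x_c = 0`, `c ∈ Z`; they hold if this part is finite, for example empty.

Let `K` be an algebraically closed field of characteristic `0`, and let `k` be a field contained in
`K`, with algebraic closure `k'` in `K`. Let `V` be a closed subset of the projective `n`-space over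
`k'`, of dimension at most `m`. For `a` in a finite set `A`, let `F_a` be a generic member of a
linear system over `k'` of forms of degree `d_a`, spanned by the forms `P_{a,j}`: the ratios of the
coefficients `t_{a,j}` of `F_a` to one of them are, for all `a` together, algebraically independent
over `k`. Let `Z` be a set of indices `c` such that each of the linear systems contains the monomials
`x_c ^ (d_a - i) x_l ^ i` for all `l` and `i`; the other forms `P_{a,j}` are arbitrary. Let `E` be
the linear subspace given by `x_c = 0` for all `c` in `Z`.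

Let `X = {G = 0}` be a closed subset of the weighted projective space over `K` with the coordinates
`x_0, …, x_n` of weight `1` and `u_w` of weight `e_w ≥ 1`, `w ∈ W`, such that

* `(x, u) ↦ x` is a finite morphism on `X` (`FiniteOver`), with image in `V` and in the hypersurfaces
  `F_a = 0`, `a ∈ C` (`Over`); `C` is a subset of `A`, for example empty;
* for the `a` not in `C`, this morphism is ramified of order at least `q_a ≥ 1` over `F_a = 0`
  (`RamifiedOver`: locally on `X`, the function `F_a` is in the `q_a`-th power of an ideal whose set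
  of zeros contains `{F_a = 0}`).

Each projective variety with a finite morphism to `V` can be given in this way. Let `X_E` be the part
of `X` over `E` (`part Z G`), and let `τ + 2 m` be the sum of the numbers `d_a + 1`, `a ∈ C`, and
`d_a (1 - 1 / q_a)`, `a ∉ C`.
-/

set_option autoImplicit false

namespace Pool.Agent.Results.MP_c7af3c_ag.LinearSystemCovers

open MvPolynomial Pool.Agent.N126.RC Pool.Agent.TH145.MG Pool.Agent.V8H90.LS
open scoped LinearAlgebra.Projectivization

/-- (1) `τ deg f ≤ 2 g - 2` for all nonconstant morphisms `f` from smooth projective curves of any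
genus `g` to `X` with image not in `X_E`. (2) If `τ > 0` then `X` is algebraically hyperbolic if and
only if `X_E` is algebraically hyperbolic, and similarly for the boundedness of the degrees of the
morphisms from each curve, and for the constancy of the morphisms from curves of genus at most `1`
(so `X` is groupless if and only if `X_E` is groupless). (3) If `τ > 1` then, for each field
generated over `k'` by a finite set `T`, only finitely many points of `X` over this field are not in
`X_E`; so, for each subset `R` of such a field, `X` has only finitely many points with homogeneous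
coordinates in `R` if and only if `X_E` has only finitely many such points (and `X` is
arithmetically hyperbolic if and only if `X_E` is arithmetically hyperbolic). (4) If `V ∩ E` is finite (for
example empty), then all nonconstant morphisms `f` from curves to `X` satisfy `τ deg f ≤ 2 g - 2`, and,
if `τ > 1`, `X` has only finitely many points over each field generated over `k'` by a finite set. -/
theorem result {k K : Type} [Field k] [Field K] [IsAlgClosed K] [CharZero K] [Algebra k K]
    {n m : ℕ}
    -- a closed subset of projective space, of dimension at most `m`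
    (V : Set (MvPolynomial (Fin (n + 1)) (algebraicClosure k K)))
    (hVh : ∀ f ∈ V, ∃ e, f.IsHomogeneous e) (hV : DimLE (algebraicClosure k K) V m)
    -- linear systems of forms of degrees `d a`
    {A : Type} [Fintype A] [DecidableEq A] (d : A → ℕ) {J : A → Type} [∀ a, Fintype (J a)]
    (P : ∀ a, J a → MvPolynomial (Fin (n + 1)) (algebraicClosure k K))
    (hP : ∀ a j, (P a j).IsHomogeneous (d a))
    -- they contain the monomials in `x_c` and another variable, for `c ∈ Z`
    (Z : Set (Fin (n + 1))) (hZ : ∀ c ∈ Z, ∀ (a : A) (l : Fin (n + 1)) (i : ℕ), i ≤ d a →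
      ∃ j, P a j = X c ^ (d a - i) * X l ^ i)
    -- the coefficients; their ratios are algebraically independent over `k`
    (t : ∀ a, J a → K) (j0 : ∀ a, J a) (h0 : ∀ a, t a (j0 a) ≠ 0)
    (hgen : AlgebraicIndependent k fun p : (a : A) × {j : J a // j ≠ j0 a} =>
      t p.1 p.2.1 / t p.1 (j0 p.1))
    -- the forms
    (F : A → MvPolynomial (Fin (n + 1)) K)
    (hF : ∀ a, F a = ∑ j, MvPolynomial.C (t a j) * map (algebraMap (algebraicClosure k K) K) (P a j))
    -- the projective variety `X = {G = 0}`, finite over `V ∩ ⋂ {F a = 0}`, `a ∈ C`, and ramified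
    (C : Finset A) (q : A → ℕ) (hq : ∀ a, a ∉ C → q a ≠ 0)
    {W ι : Type} [Finite W] [Finite ι] (e : W → ℕ) (he : ∀ w, 0 < e w)
    (G : ι → MvPolynomial (Fin (n + 1) ⊕ W) K)
    (hG : ∀ i, ∃ c, (G i).IsWeightedHomogeneous (wts e) c) (hfin : FiniteOver G)
    (hov : Over V F C G) (hram : ∀ a, a ∉ C → RamifiedOver G (F a) (q a))
    (τ : ℚ)
    (hτ : τ = ∑ a ∈ C, ((d a : ℚ) + 1) + ∑ a ∈ Cᶜ, (d a : ℚ) * (1 - 1 / q a) - 2 * m) :
    CurveBoundOff Z G τ ∧
    (0 < τ → (AlgHyp G ↔ AlgHyp (part Z G)) ∧ (BoundedMaps G ↔ BoundedMaps (part Z G)) ∧
      (GenusOneConst G ↔ GenusOneConst (part Z G))) ∧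
    (1 < τ → ∀ T : Finset K,
      FinOff Z e G (IntermediateField.adjoin (algebraicClosure k K) (T : Set K)) ∧
      ∀ R : Set K, (∀ r ∈ R, r ∈ IntermediateField.adjoin (algebraicClosure k K) (T : Set K)) →
        (FinOn e G R ↔ FinOn e (part Z G) R)) ∧
    ({p : ℙ K (Fin (n + 1) → K) | ∃ (x : Fin (n + 1) → K) (hx : x ≠ 0),
        p = Projectivization.mk K x hx ∧ (∀ f ∈ V, aeval x f = 0) ∧ ∀ c ∈ Z, x c = 0}.Finite →
      CurveBound G τ ∧ (1 < τ → FinitePoints (algebraicClosure k K) e G)) := by
  have hac : IsAlgClosed (algebraicClosure k K) := (algebraicClosure.isAlgClosure k K).isAlgClosed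
  have hind : AlgebraicIndependent (algebraicClosure k K)
      fun p : (a : A) × {j : J a // j ≠ j0 a} => t p.1 p.2.1 / t p.1 (j0 p.1) :=
    hgen.algebraicClosure
  have hSt : ∀ c ∈ Z, ∀ a, ∀ I ∈ Pool.Agent.TH145.GD.St c (d a),
      ∃ j, P a j = monomial I 1 := by
    intro c hc a I hI
    obtain ⟨l, i, hi, rfl⟩ := hI
    obtain ⟨j, hj⟩ := hZ c hc a l i hi
    refine ⟨j, ?_⟩
    rw [hj, Pool.Agent.TH145.GD.sM, X_pow_eq_monomial, X_pow_eq_monomial, monomial_mul, one_mul]
  have hcur : CurveBoundOff Z G τ := by
    rintro L _ _ _ z c1 h1 ⟨c, hc, hzc⟩ hz hnc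
    rw [hτ]
    exact curve_cover C hq V hVh hV P hP t j0 h0 hind hF e G hG hfin hov hram c (hSt c hc) z c1 h1
      hzc hz hnc
  have hoff : 1 < τ → ∀ T : Finset K,
      FinOff Z e G (IntermediateField.adjoin (algebraicClosure k K) (T : Set K)) := by
    intro h1 T
    exact fin_off C hq (by rw [hτ] at h1; linarith) V hV P hP t j0 h0 hind hF e G hG hfin hov hram
      Z hSt T
  refine ⟨hcur, fun h => ⟨alg_iff h hcur, bounded_iff h hcur, genus_iff hfin h hcur⟩,
    fun h T => ⟨hoff h T, fun R hR => fin_iff ((hoff h T).mono hR)⟩, fun hVE => ⟨?_, fun h T => ?_⟩⟩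
  · intro L _ _ _ z c1 h1 hz hnc
    refine hcur L z c1 h1 ?_ hz hnc
    by_contra hcon
    push Not at hcon
    obtain ⟨v, hv⟩ := hnc
    exact hv (const_part hfin hov hVE h1 (part_of hz hcon) v)
  · exact (fin_iff (hoff h T)).2 (fin_part he hG hfin hov hVE _)

end Pool.Agent.Results.MP_c7af3c_ag.LinearSystemCovers
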