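import Mathlib
import Pool.Agent.V8H29.FS8
import Pool.Agent.K1H41.PA.Uli
import Pool.Agent.K1H33.PA.UliQ

/-!
MP_c7af3c_ag, Q1: the geometric and the arithmetic side of the conjecture of Lang for the points of
ALL projective varieties which are short sums of units.

Let `K` be an algebraically closed field of characteristic `0`, let `X = {F1 = 0}` be any closed
subset of projective `n`-space over `K`, and `Z = {F2 = 0}` another one (it is empty for
`F2 = {1}`).

(1) (uniform in `X`) Let `L / K` be the function field of a curve of genus `g`, `S` a finite set of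
points of the curve, `x = ∑ u_j v_j` (`r` summands) an `L`-point of `X` outside `Z`, where the `u_j`
are `S`-units, or more generally `S`-units times `N`-th powers for some `N ≥ N0`, and where the
ratios of the coordinates of the vectors `v_j` have height at most `h`. If all the nonconstant
rational curves in `X` of degree at most `M` lie in `Z`, then the height of `x` (the degree of the
morphism from the curve to `X` given by `x`) is at most `C N (max (2 g - 2 + #S, 0) + h)`. Here `M`,
`C` and `N0` depend only on `n`, on `r` and on the degrees of the equations of `X`.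

(2) The following are equivalent: all nonconstant rational curves in `X` lie in `Z`; for each `r` a
bound as in (1); for each `r`, each curve and each `S`, boundedness of the heights of the points
which are sums of `r` constant vectors with coefficients in the `S`-units; finiteness, for each
finitely generated subgroup `Γ` of the multiplicative group of `K`, each `r` and each finite set
of vectors, of the set of the points of `X` outside `Z` which are sums of `r` of these vectors with
coefficients in `Γ`.

(3) The conditions in (2) hold if all morphisms from curves of genus at most one to `X` are constant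
or have their image in `Z` (for example if `X` is groupless, and `Z` is empty), and they hold if for
every subring `A` of `K` generated by a finite set there are only finitely many points of `X`
outside `Z` with homogeneous coordinates in `A` that generate the unit ideal (for example if `X` is
arithmetically hyperbolic, and `Z` is empty).
-/

set_option autoImplicit false

namespace Pool.Agent.Results.MP_c7af3c_ag.ShortUnitSums

open MvPolynomial FF Pool.Agent.W603.LV Pool.Agent.W603.PV Pool.Agent.V8H29.FS

theorem result :
    -- (1) the uniform bound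
    (∀ n d r : ℕ, ∃ C M N0 : ℕ, 0 < N0 ∧ ∀ (K L : Type) [Field K] [Field L]
      [Algebra K L] [CharZero K] [IsFF K L] [IsAlgClosed K]
      (F1 F2 : Set (MvPolynomial (Fin (n + 1)) K)), (∀ F ∈ F1, ∃ e ≤ d, F.IsHomogeneous e) →
      CurvesIn M F1 F2 → ∀ (S : Finset (Place K L)) (N : ℕ), N0 ≤ N → ∀ (u : Fin r → Lˣ),
      (∀ P ∉ S, ∀ i j, (N : ℤ) ∣ P.ord (u i : L) - P.ord (u j : L)) →
      ∀ (h : ℤ), 0 ≤ h → ∀ (v : Fin r → Fin (n + 1) → L), VecLe K h v →
      pt v u ≠ 0 → (∀ F ∈ F1, aeval (pt v u) F = 0) → (∃ G ∈ F2, aeval (pt v u) G ≠ 0) →
      pht K (pt v u) ≤ C * N * (chi S + h)) ∧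
    ∀ (K : Type) [Field K] [IsAlgClosed K] [CharZero K] (n d : ℕ)
      (F1 F2 : Set (MvPolynomial (Fin (n + 1)) K)), (∀ F ∈ F1, ∃ e ≤ d, F.IsHomogeneous e) →
      (∀ G ∈ F2, ∃ e, G.IsHomogeneous e) →
    -- (2) the equivalence
      [RatCurvesIn F1 F2, LinBoundOff F1 F2, BddOff F1 F2, ArithFin F1 F2].TFAE ∧
    -- (3) groupless and arithmetically hyperbolic varieties
      (GenusOneOff F1 F2 → RatCurvesIn F1 F2) ∧
      ((∀ T : Finset K, (RingPts F1 F2 T).Finite) → RatCurvesIn F1 F2) := by
  refine ⟨off_special, fun K _ _ _ n d F1 F2 hF1 hF2 => ⟨?_, genus_rat, ring_rat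
    (fun F hF => (hF1 F hF).imp fun e h => h.2) hF2⟩⟩
  have hU : Pool.Agent.K1H77.PA.ULI K := Pool.Agent.K1H41.PA.t_ULI Pool.Agent.K1H33.PA.t_ULI_Q K
  tfae_have 1 → 2 := rat_lin hF1
  tfae_have 2 → 3 := lin_bdd
  tfae_have 3 → 1 := bdd_rat
  tfae_have 1 → 4 := rat_arith hU hF1
  tfae_have 4 → 1 := arith_rat
  tfae_finish

end Pool.Agent.Results.MP_c7af3c_ag.ShortUnitSums
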